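import Mathlib

/-!
# MP_49cbaf_nt: differences of perfect powers for certain integers congruent to 2 modulo 4

Exponents which are excluded for all 38 integers of the set `S`.
-/

set_option autoImplicit false

namespace Pool.Agent.Results.MP_49cbaf_nt.ExponentClasses

/-- The set `S` of the problem. -/
def S : List ℕ :=
  [6, 14, 34, 42, 50, 58, 62, 66, 70, 78, 82, 86, 90, 102, 110, 114, 130, 134, 158,
    178, 182, 202, 206, 210, 226, 230, 238, 246, 254, 258, 266, 274, 278, 302, 306, 310, 314, 322]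

/-- Three pairs `(P, Q)`. -/
def classes : List (ℕ × ℕ) := [(36, 35), (20, 63), (64, 21)]

/-- `k` is not a difference `m^p - n^q` with positive exponents `p` divisible by `P` and `q`
divisible by `Q`. -/
def NoDifference (k P Q : ℕ) : Prop :=
  ∀ m n p q : ℕ, 0 < p → 0 < q → P ∣ p → Q ∣ q → m ^ p ≠ n ^ q + k

private def primeB (l : ℕ) : Bool :=
  decide (2 ≤ l) && (List.range l).all fun d => decide (d < 2) || decide (l % d ≠ 0)

private lemma primeB_spec {l : ℕ} (h : primeB l = true) : l.Prime := by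
  unfold primeB at h
  rw [Bool.and_eq_true, List.all_eq_true] at h
  obtain ⟨h2, h3⟩ := h
  have h2' : 2 ≤ l := of_decide_eq_true h2
  refine Nat.prime_def_lt.2 ⟨h2', fun m hm hd => ?_⟩
  have h4 := h3 m (List.mem_range.2 hm)
  rw [Bool.or_eq_true, decide_eq_true_eq, decide_eq_true_eq] at h4
  rcases h4 with h4 | h4
  · rcases Nat.eq_zero_or_pos m with h0 | h0
    · rw [h0] at hd
      have := Nat.eq_zero_of_zero_dvd hd
      omega
    · omega
  · exact absurd (Nat.mod_eq_zero_of_dvd hd) h4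

private def test (l u v k : ℕ) : Bool :=
  (List.range l).all fun b => !(((b == 0) || (b ^ v % l == 1)) &&
    (((b + k) % l == 0) || ((b + k) ^ u % l == 1)))

private def row (r : ℕ × ℕ × ℕ × ℕ) : Bool :=
  primeB r.2.2.2 && test r.2.2.2 ((r.2.2.2 - 1) / Nat.gcd r.1 (r.2.2.2 - 1))
    ((r.2.2.2 - 1) / Nat.gcd r.2.1 (r.2.2.2 - 1)) r.2.2.1

private lemma root {l P p : ℕ} (hl : l.Prime) (hp : 0 < p) (hP : P ∣ p) (m : ℕ) :
    m ^ p % l = 0 ∨ (m ^ p) ^ ((l - 1) / Nat.gcd P (l - 1)) % l = 1 := by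
  have := Fact.mk hl
  by_cases hm : l ∣ m
  · left
    exact Nat.mod_eq_zero_of_dvd (dvd_pow hm hp.ne')
  · right
    have h0 : (m : ZMod l) ≠ 0 := by
      intro h
      exact hm ((ZMod.natCast_eq_zero_iff m l).1 h)
    obtain ⟨c, hc⟩ := hP
    obtain ⟨d, hd⟩ := Nat.gcd_dvd_left P (l - 1)
    obtain ⟨e, he⟩ := Nat.gcd_dvd_right P (l - 1)
    have hg : 0 < Nat.gcd P (l - 1) := Nat.gcd_pos_of_pos_right _ (by have := hl.two_le; omega)
    have h1 : (l - 1) / Nat.gcd P (l - 1) = e := Nat.div_eq_of_eq_mul_right hg he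
    have h2 : p * ((l - 1) / Nat.gcd P (l - 1)) = (l - 1) * (c * d) := by
      rw [h1, hc]
      have h5 : P * c * e = Nat.gcd P (l - 1) * d * c * e := congrArg (fun x => x * c * e) hd
      have h6 : (l - 1) * (c * d) = Nat.gcd P (l - 1) * e * (c * d) :=
        congrArg (fun x => x * (c * d)) he
      rw [h5, h6]
      ring
    have h3 : (((m ^ p) ^ ((l - 1) / Nat.gcd P (l - 1)) : ℕ) : ZMod l) = ((1 : ℕ) : ZMod l) := by
      push_cast
      rw [← pow_mul, h2, pow_mul, ZMod.pow_card_sub_one_eq_one h0, one_pow]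
    have h4 := (ZMod.natCast_eq_natCast_iff' _ _ _).1 h3
    rw [h4]
    exact Nat.mod_eq_of_lt hl.one_lt

private lemma row_spec {r : ℕ × ℕ × ℕ × ℕ} (h : row r = true) :
    NoDifference r.2.2.1 r.1 r.2.1 := by
  obtain ⟨P, Q, k, l⟩ := r
  unfold row at h
  rw [Bool.and_eq_true] at h
  obtain ⟨hpr, ht⟩ := h
  have hl : l.Prime := primeB_spec hpr
  intro m n p q hp hq hP hQ e
  simp only at hP hQ e ht
  unfold test at ht
  rw [List.all_eq_true] at ht
  have hb := ht (n ^ q % l) (List.mem_range.2 (Nat.mod_lt _ hl.pos))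
  have hA := root hl hp hP m
  have hB := root hl hq hQ n
  have e1 : (n ^ q % l + k) % l = m ^ p % l := by rw [Nat.mod_add_mod, e]
  have e2 : ∀ u : ℕ, (n ^ q % l + k) ^ u % l = (m ^ p) ^ u % l := by
    intro u
    rw [Nat.pow_mod, e1, ← Nat.pow_mod]
  rw [e2, e1, ← Nat.pow_mod] at hb
  simp only [Bool.not_eq_true', Bool.and_eq_false_iff, Bool.or_eq_false_iff, beq_eq_false_iff_ne,
    ne_eq] at hb
  rcases hb with ⟨h1, h2⟩ | ⟨h1, h2⟩
  · rcases hB with h | h
    · exact h1 h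
    · exact h2 h
  · rcases hA with h | h
    · exact h1 h
    · exact h2 h

private def big : List (ℕ × ℕ × ℕ × ℕ) :=
  [ (36, 35, 6, 41), (36, 35, 14, 29), (36, 35, 34, 29), (36, 35, 42, 61), (36, 35, 50, 31),
    (36, 35, 58, 127), (36, 35, 62, 11), (36, 35, 66, 71), (36, 35, 70, 41), (36, 35, 78, 61),
    (36, 35, 82, 31), (36, 35, 86, 31), (36, 35, 90, 421), (36, 35, 102, 127), (36, 35, 110, 43),
    (36, 35, 114, 29), (36, 35, 130, 29), (36, 35, 134, 421), (36, 35, 158, 41),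
    (36, 35, 178, 31), (36, 35, 182, 127), (36, 35, 202, 43), (36, 35, 206, 31),
    (36, 35, 210, 31), (36, 35, 226, 61), (36, 35, 230, 29), (36, 35, 238, 11),
    (36, 35, 246, 29), (36, 35, 254, 43), (36, 35, 258, 41), (36, 35, 266, 29),
    (36, 35, 274, 421), (36, 35, 278, 181), (36, 35, 302, 31), (36, 35, 306, 71),
    (36, 35, 310, 181), (36, 35, 314, 43), (36, 35, 322, 31), (20, 63, 6, 127), (20, 63, 14, 19),
    (20, 63, 34, 29), (20, 63, 42, 31), (20, 63, 50, 31), (20, 63, 58, 37), (20, 63, 62, 43),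
    (20, 63, 66, 37), (20, 63, 70, 19), (20, 63, 78, 61), (20, 63, 82, 71), (20, 63, 86, 211),
    (20, 63, 90, 19), (20, 63, 102, 421), (20, 63, 110, 61), (20, 63, 114, 29),
    (20, 63, 130, 29), (20, 63, 134, 37), (20, 63, 158, 43), (20, 63, 178, 37),
    (20, 63, 182, 127), (20, 63, 202, 13), (20, 63, 206, 37), (20, 63, 210, 71),
    (20, 63, 226, 61), (20, 63, 230, 29), (20, 63, 238, 127), (20, 63, 246, 29),
    (20, 63, 254, 13), (20, 63, 258, 73), (20, 63, 266, 29), (20, 63, 274, 61),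
    (20, 63, 278, 37), (20, 63, 302, 211), (20, 63, 306, 13), (20, 63, 310, 37),
    (20, 63, 314, 211), (20, 63, 322, 31), (64, 21, 6, 113), (64, 21, 14, 29), (64, 21, 34, 29),
    (64, 21, 42, 673), (64, 21, 50, 337), (64, 21, 58, 97), (64, 21, 62, 43), (64, 21, 66, 97),
    (64, 21, 70, 43), (64, 21, 78, 193), (64, 21, 82, 113), (64, 21, 86, 113), (64, 21, 90, 113),
    (64, 21, 102, 113), (64, 21, 110, 193), (64, 21, 114, 29), (64, 21, 130, 29),
    (64, 21, 134, 97), (64, 21, 158, 43), (64, 21, 178, 449), (64, 21, 182, 337),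
    (64, 21, 202, 13), (64, 21, 206, 337), (64, 21, 210, 769), (64, 21, 226, 97),
    (64, 21, 230, 29), (64, 21, 238, 97), (64, 21, 246, 29), (64, 21, 254, 13),
    (64, 21, 258, 113), (64, 21, 266, 29), (64, 21, 274, 449), (64, 21, 278, 97),
    (64, 21, 302, 337), (64, 21, 306, 13), (64, 21, 310, 449), (64, 21, 314, 337),
    (64, 21, 322, 337)]

private def smallE : List (ℕ × ℕ × ℕ × ℕ) :=
  [ (4, 5, 6, 41), (2, 9, 14, 19), (4, 7, 34, 29), (10, 3, 42, 31), (6, 5, 50, 31),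
    (4, 9, 58, 37), (2, 5, 62, 11), (2, 11, 66, 23), (2, 9, 70, 19), (12, 5, 78, 61),
    (6, 5, 82, 31), (6, 5, 86, 31), (2, 9, 90, 19), (8, 5, 102, 41), (6, 7, 110, 43),
    (4, 7, 114, 29), (4, 7, 130, 29), (2, 9, 134, 37), (4, 5, 158, 41), (2, 15, 178, 31),
    (2, 11, 182, 23), (4, 3, 202, 13), (6, 5, 206, 31), (6, 5, 210, 31), (10, 3, 226, 61),
    (4, 7, 230, 29), (2, 5, 238, 11), (4, 7, 246, 29), (4, 3, 254, 13), (4, 5, 258, 41),
    (4, 7, 266, 29), (2, 11, 274, 23), (4, 9, 278, 37), (2, 15, 302, 31), (4, 3, 306, 13),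
    (2, 9, 310, 37), (6, 7, 314, 43), (4, 5, 322, 41)]

private def smallO : List (ℕ × ℕ × ℕ × ℕ) :=
  [ (3, 17, 6, 103), (3, 101, 14, 607), (7, 9, 34, 127), (3, 61, 42, 733), (3, 5, 50, 31),
    (5, 31, 58, 311), (3, 7, 62, 43), (5, 31, 66, 311), (9, 11, 70, 199), (7, 9, 78, 127),
    (5, 7, 82, 71), (3, 11, 86, 67), (5, 27, 90, 271), (5, 19, 102, 191), (3, 7, 110, 43),
    (3, 23, 114, 139), (5, 19, 130, 191), (5, 7, 134, 71), (5, 31, 158, 311), (3, 37, 178, 223),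
    (3, 11, 182, 67), (3, 7, 202, 43), (5, 13, 206, 131), (3, 23, 210, 139), (5, 13, 226, 131),
    (15, 19, 230, 571), (5, 19, 238, 191), (3, 35, 246, 211), (17, 27, 254, 919),
    (3, 17, 258, 103), (17, 19, 266, 647), (5, 7, 274, 71), (11, 19, 278, 419),
    (7, 15, 302, 211), (5, 33, 306, 661), (5, 21, 310, 211), (3, 7, 314, 43), (3, 5, 322, 31)]

private lemma big_ok : big.all row = true := by decide +kernel

private lemma smallE_ok : smallE.all row = true := by decide +kernel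

private lemma smallO_ok : smallO.all row = true := by decide +kernel

private lemma smallO_ok' : smallO.all (fun t => row (t.2.1, t.1, t.2.2)) = true := by decide +kernel

private lemma big_cover : ∀ r ∈ classes, ∀ k ∈ S, ∃ t ∈ big, t.1 = r.1 ∧ t.2.1 = r.2 ∧ t.2.2.1 = k := by decide +kernel

private lemma smallE_cover : ∀ k ∈ S, ∃ t ∈ smallE, t.2.2.1 = k ∧ 2 ∣ t.1 ∧ 2 ≤ t.2.1 ∧
    Nat.gcd t.1 t.2.1 = 1 ∧ t.1 * t.2.1 ≤ 60 := by decide +kernel

private lemma smallO_cover : ∀ k ∈ S, ∃ t ∈ smallO, t.2.2.1 = k ∧ 3 ≤ t.1 ∧ 3 ≤ t.2.1 ∧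
    t.1 % 2 = 1 ∧ t.2.1 % 2 = 1 ∧ Nat.gcd t.1 t.2.1 = 1 ∧ t.1 * t.2.1 ≤ 459 := by decide +kernel

/-- (1) For each of the three pairs `(P, Q)` no `k` in `S` is a difference `m^p - n^q` of perfect
powers with `P ∣ p` and `Q ∣ q`. (2) For every `k` in `S` there are coprime `P, Q ≥ 2` with `P` even
and `P Q ≤ 60` such that `k` is not such a difference with `P ∣ p` and `Q ∣ q`. (3) For every `k` in
`S` there are coprime odd `P, Q ≥ 3` with `P Q ≤ 459` such that `k` is not such a difference with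
`P ∣ p` and `Q ∣ q`, nor with `Q ∣ p` and `P ∣ q`. -/
theorem result :
    (∀ k ∈ S, ∀ r ∈ classes, NoDifference k r.1 r.2) ∧
    (∀ k ∈ S, ∃ P Q : ℕ, 2 ≤ P ∧ 2 ≤ Q ∧ 2 ∣ P ∧ Nat.Coprime P Q ∧ P * Q ≤ 60 ∧
      NoDifference k P Q) ∧
    (∀ k ∈ S, ∃ P Q : ℕ, 3 ≤ P ∧ 3 ≤ Q ∧ Odd P ∧ Odd Q ∧ Nat.Coprime P Q ∧ P * Q ≤ 459 ∧
      NoDifference k P Q ∧ NoDifference k Q P) := by
  refine ⟨fun k hk r hr => ?_, fun k hk => ?_, fun k hk => ?_⟩
  · obtain ⟨t, ht, h1, h2, h3⟩ := big_cover r hr k hk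
    have h4 := row_spec (List.all_eq_true.1 big_ok t ht)
    rw [h1, h2, h3] at h4
    exact h4
  · obtain ⟨t, ht, h1, h2, h3, h4, h5⟩ := smallE_cover k hk
    have h0 : 0 < t.1 := by
      rcases Nat.eq_zero_or_pos t.1 with h | h
      · rw [h, Nat.gcd_zero_left] at h4
        omega
      · exact h
    refine ⟨t.1, t.2.1, Nat.le_of_dvd h0 h2, h3, h2, h4, h5, ?_⟩
    have h6 := row_spec (List.all_eq_true.1 smallE_ok t ht)
    rw [h1] at h6
    exact h6
  · obtain ⟨t, ht, h1, h2, h3, h4, h5, h6, h7⟩ := smallO_cover k hk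
    refine ⟨t.1, t.2.1, h2, h3, Nat.odd_iff.2 h4, Nat.odd_iff.2 h5, h6, h7, ?_, ?_⟩
    · have h8 := row_spec (List.all_eq_true.1 smallO_ok t ht)
      rw [h1] at h8
      exact h8
    · have h8 := row_spec (List.all_eq_true.1 smallO_ok' t ht)
      simp only at h8
      rw [h1] at h8
      exact h8

end Pool.Agent.Results.MP_49cbaf_nt.ExponentClasses
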