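import Pool.Agent.H96.PP.Six

/-!
# Differences of perfect powers congruent to 2 modulo 4

Conditions on the bases `m`, `n` of a representation `k = m ^ p - n ^ q`, `k` congruent to `2`
modulo `4`, which depend only on the parities of the exponents. `J(a | b)` is the Jacobi symbol of
Mathlib, `S` the set of the 38 integers of the problem.
-/

namespace Pool.Agent.Results.MP_49cbaf_nt.UniformConditions

open Pool.Agent.H96.PP

open scoped NumberTheorySymbols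

theorem result :
    -- every `k` congruent to `2` modulo `4`
    (∀ k m n p q : ℕ, k % 4 = 2 → 2 ≤ p → 2 ≤ q → m ^ p = n ^ q + k →
      m % 2 = 1 ∧ n % 2 = 1 ∧ (p % 2 = 1 ∨ q % 2 = 1) ∧
      (∀ r : ℕ, r.Prime → r ∣ k → ¬ r ^ 2 ∣ k → ¬ r ∣ m ∧ ¬ r ∣ n) ∧
      -- the first exponent even
      (p % 2 = 0 → n % 8 = (k + 5) % 8 ∧ J((n : ℤ) + k | 3) ≠ -1 ∧
        J((n : ℤ) - 1 | (k + 1)) ≠ -1 ∧ J((n : ℤ) + 1 | (k - 1)) ≠ -1 ∧
        ∀ r : ℕ, r ∣ k → J((n : ℤ) | r) ≠ -1) ∧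
      -- the second exponent even
      (q % 2 = 0 → m % 8 = (k + 1) % 8 ∧ J((m : ℤ) - k | 3) ≠ -1 ∧
        J((m : ℤ) - 1 | (k - 1)) ≠ -1 ∧ J((m : ℤ) + 1 | (k + 1)) ≠ -1 ∧
        J(-(k : ℤ) | m) ≠ -1 ∧ ∀ r : ℕ, r ∣ k → J((m : ℤ) | r) ≠ -1) ∧
      -- both exponents odd
      (p % 2 = 1 → q % 2 = 1 → m % 24 = (n + k) % 24 ∧
        (∀ r : ℕ, r ∣ k → J((m : ℤ) | r) = J((n : ℤ) | r)) ∧
        (∀ u : ℕ, (u : ℤ) ∣ (n : ℤ) - 1 → J((m : ℤ) | u) = J((k : ℤ) + 1 | u)) ∧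
        (∀ u : ℕ, (u : ℤ) ∣ (n : ℤ) + 1 → J((m : ℤ) | u) = J((k : ℤ) - 1 | u)) ∧
        (∀ u : ℕ, (u : ℤ) ∣ (m : ℤ) - 1 → J((n : ℤ) | u) = J(1 - (k : ℤ) | u)) ∧
        (∀ u : ℕ, (u : ℤ) ∣ (m : ℤ) + 1 → J((n : ℤ) | u) = J(-1 - (k : ℤ) | u)))) ∧
    -- the 38 integers of the problem: coprime exponents
    (∀ k ∈ S, ∀ m n p q : ℕ, 1 ≤ n → 2 ≤ p → 2 ≤ q → m ^ p = n ^ q + k → Nat.gcd p q = 1) ∧
    -- the classes that remain for `k = 6`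
    (∀ m n p q : ℕ, 2 ≤ p → 2 ≤ q → m ^ p = n ^ q + 6 →
      (p % 2 = 0 → n % 8 = 3 ∧ n % 3 = 1 ∧
        n % 5 ∈ ({0, 3, 4} : Finset ℕ) ∧ n % 7 ∈ ({1, 2, 3, 5} : Finset ℕ)) ∧
      (q % 2 = 0 → m % 8 = 7 ∧ m % 3 = 1 ∧ m % 5 ∈ ({0, 1, 2} : Finset ℕ) ∧
        m % 7 ∈ ({0, 1, 3, 6} : Finset ℕ))) := by
  refine ⟨fun k m n p q hk hp hq h => ?_, fun k hk m n p q hn hp hq h =>
    coprime_exponents hk hn hp hq h, fun m n p q hp hq h =>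
    ⟨six_first hp hq h, six_second hp hq h⟩⟩
  obtain ⟨hm, hn⟩ := odd_both hk hp hq h
  refine ⟨hm, hn, ?_, fun r hr h1 h2 => exact_div hp hq h hr h1 h2,
    fun hpe => ⟨first_mod hk hp hq h hpe, first_three hk hp hq h hpe,
      first_sub hk hp hq h hpe, first_add hk hp hq h hpe,
      fun r hr => first_dvd hk hp hq h hpe hr⟩,
    fun hqe => ⟨(second_mod hk hp hq h hqe).2, second_three hk hp hq h hqe,
      second_sub hk hp hq h hqe, second_add hk hp hq h hqe, second_dvd hp h hqe,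
      fun r hr => second_div hk hp hq h hqe hr⟩,
    fun hpo hqo => ⟨odd_mod hk hp hq h hpo hqo, fun r hr => odd_div h hpo hqo hr,
      fun u hu => odd_sub_n h hpo hu, fun u hu => odd_add_n h hpo hqo hu,
      fun u hu => odd_sub_m h hqo hu, fun u hu => odd_add_m h hpo hqo hu⟩⟩
  by_contra hc
  push Not at hc
  have := not_both_even hk hp hq h (by omega)
  omega

end Pool.Agent.Results.MP_49cbaf_nt.UniformConditions
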